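import Pool.Agent.H17PB.Stm

set_option autoImplicit false

namespace Pool.Agent.H17PB

open MeasureTheory ProbabilityTheory
open Pool.Agent.Results.MP_7c2736_pr.NoPoincareBound
open scoped ENNReal ContDiff

namespace BAR

variable {n N : ℕ}

@[simp] theorem tail_J (p : ℝ × E n) : tail (J p) = p.2 := by
  ext i
  simp [tail, J]

@[simp] theorem J_zero (p : ℝ × E n) : J p 0 = p.1 := by
  simp [J]

@[simp] theorem J_succ (p : ℝ × E n) (i : Fin n) : J p i.succ = p.2 i := by
  simp [J]

@[simp] theorem tail_apply (x : E (n + 1)) (i : Fin n) : tail x i = x i.succ := rfl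

theorem continuous_J : Continuous (J : ℝ × E n → E (n + 1)) := by
  unfold J
  refine (PiLp.continuous_toLp 2 _).comp ?_
  refine continuous_pi fun i => ?_
  refine Fin.cases ?_ (fun j => ?_) i
  · simpa using continuous_fst
  · simp only [Fin.cons_succ]
    fun_prop

theorem continuous_tail : Continuous (tail : E (n + 1) → E n) := by
  unfold tail
  refine (PiLp.continuous_toLp 2 _).comp ?_
  refine continuous_pi fun i => ?_
  fun_prop

theorem measurable_J : Measurable (J : ℝ × E n → E (n + 1)) := continuous_J.measurable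

theorem measurable_tail : Measurable (tail : E (n + 1) → E n) := continuous_tail.measurable

theorem norm_tail_sub (x y : E (n + 1)) : ‖tail x - tail y‖ ≤ ‖x - y‖ := by
  rw [EuclideanSpace.norm_eq, EuclideanSpace.norm_eq]
  apply Real.sqrt_le_sqrt
  rw [Fin.sum_univ_succ (fun i => ‖(x - y) i‖ ^ 2)]
  simp only [PiLp.sub_apply, tail_apply]
  nlinarith [sq_nonneg ‖x 0 - y 0‖]

theorem norm_J_sub (t : ℝ) (y z : E n) : ‖J (t, y) - J (t, z)‖ = ‖y - z‖ := by
  rw [EuclideanSpace.norm_eq, EuclideanSpace.norm_eq]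
  congr 1
  rw [Fin.sum_univ_succ (fun i => ‖(J (t, y) - J (t, z)) i‖ ^ 2)]
  simp

instance prob_lift (κ : ℝ) (μ : Measure (E n)) [IsProbabilityMeasure μ] :
    IsProbabilityMeasure (lift κ μ) := by
  unfold lift
  exact Measure.isProbabilityMeasure_map measurable_J.aemeasurable

theorem map_tail_lift (κ : ℝ) (μ : Measure (E n)) [SFinite μ] :
    (lift κ μ).map tail = μ := by
  unfold lift
  rw [Measure.map_map measurable_tail measurable_J]
  have : (tail ∘ J : ℝ × E n → E n) = Prod.snd := by
    funext p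
    simp
  rw [this, Measure.map_snd_prod]
  simp

theorem W2sq_le {ν μ : Measure (E n)} {π : Measure (E n × E n)} (h : IsCoupling π ν μ) :
    W2sq ν μ ≤ ∫⁻ z, ‖z.1 - z.2‖ₑ ^ 2 ∂π := iInf₂_le π h

/-- products with the same factor do not increase the distance -/
theorem W2sq_lift (κ : ℝ) (μ ν : Measure (E n)) [IsProbabilityMeasure μ] [IsProbabilityMeasure ν] :
    W2sq (lift κ ν) (lift κ μ) ≤ W2sq ν μ := by
  refine le_iInf₂ fun π hπ => ?_
  have hfst : π.map Prod.fst = ν := hπ.1
  have hsnd : π.map Prod.snd = μ := hπ.2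
  have hπp : IsProbabilityMeasure π := by
    constructor
    have := measure_univ (μ := ν)
    rw [← hfst, Measure.map_apply measurable_fst MeasurableSet.univ] at this
    simpa using this
  set γ := gaussianReal 0 (Real.toNNReal κ⁻¹)
  set G : ℝ × (E n × E n) → E (n + 1) × E (n + 1) := fun p => (J (p.1, p.2.1), J (p.1, p.2.2))
    with hG
  have hGm : Measurable G := by
    refine Measurable.prodMk (measurable_J.comp ?_) (measurable_J.comp ?_)
    · exact measurable_fst.prodMk (measurable_fst.comp measurable_snd)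
    · exact measurable_fst.prodMk (measurable_snd.comp measurable_snd)
  have hc : IsCoupling ((γ.prod π).map G) (lift κ ν) (lift κ μ) := by
   constructor
   · rw [Measure.map_map measurable_fst hGm]
     have e : (Prod.fst ∘ G) = J ∘ (Prod.map id Prod.fst) := rfl
     rw [e, ← Measure.map_map measurable_J (measurable_id.prodMap measurable_fst),
      ← Measure.map_prod_map _ _ measurable_id measurable_fst, Measure.map_id, hfst]
     rfl
   · rw [Measure.map_map measurable_snd hGm]
     have e : (Prod.snd ∘ G) = J ∘ (Prod.map id Prod.snd) := rfl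
     rw [e, ← Measure.map_map measurable_J (measurable_id.prodMap measurable_snd),
      ← Measure.map_prod_map _ _ measurable_id measurable_snd, Measure.map_id, hsnd]
     rfl
  refine (W2sq_le hc).trans (le_of_eq ?_)
  · have hm : Measurable fun z : E (n + 1) × E (n + 1) => ‖z.1 - z.2‖ₑ ^ 2 := by fun_prop
    rw [lintegral_map hm hGm]
    have e : ∀ p : ℝ × (E n × E n), ‖(G p).1 - (G p).2‖ₑ ^ 2 = ‖p.2.1 - p.2.2‖ₑ ^ 2 := by
      intro p
      have : ‖(G p).1 - (G p).2‖ₑ = ‖p.2.1 - p.2.2‖ₑ := by
        rw [← ofReal_norm, ← ofReal_norm]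
        congr 1
        exact norm_J_sub p.1 p.2.1 p.2.2
      rw [this]
    simp_rw [e]
    rw [lintegral_prod _ (by fun_prop)]
    simp

theorem W2sq_tail (κ : ℝ) (μ : Measure (E n)) [IsProbabilityMeasure μ]
    (ν : Measure (E (n + 1))) : W2sq (ν.map tail) μ ≤ W2sq ν (lift κ μ) := by
  refine le_iInf₂ fun π hπ => ?_
  have hfst : π.map Prod.fst = ν := hπ.1
  have hsnd : π.map Prod.snd = lift κ μ := hπ.2
  have hm : Measurable (Prod.map tail tail : E (n + 1) × E (n + 1) → E n × E n) :=
    measurable_tail.prodMap measurable_tail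
  have hc : IsCoupling (π.map (Prod.map tail tail)) (ν.map tail) μ := by
   constructor
   · rw [Measure.map_map measurable_fst hm]
     have e : (Prod.fst ∘ (Prod.map tail tail : E (n + 1) × E (n + 1) → E n × E n)) =
      tail ∘ Prod.fst := rfl
     rw [e, ← Measure.map_map measurable_tail measurable_fst, hfst]
   · rw [Measure.map_map measurable_snd hm]
     have e : (Prod.snd ∘ (Prod.map tail tail : E (n + 1) × E (n + 1) → E n × E n)) =
      tail ∘ Prod.snd := rfl
     rw [e, ← Measure.map_map measurable_tail measurable_snd, hsnd, map_tail_lift]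
  refine (W2sq_le hc).trans ?_
  · have hm' : Measurable fun z : E n × E n => ‖z.1 - z.2‖ₑ ^ 2 := by fun_prop
    rw [lintegral_map hm' hm]
    refine lintegral_mono fun z => ?_
    simp only [Prod.map_fst, Prod.map_snd]
    have : ‖tail z.1 - tail z.2‖ₑ ≤ ‖z.1 - z.2‖ₑ := by
      rw [← ofReal_norm, ← ofReal_norm]
      exact ENNReal.ofReal_le_ofReal (norm_tail_sub _ _)
    gcongr

theorem t : Pool.Agent.H17PB.BAR := by
  intro n N κ w μ ν hκ hμ hν
  have := hν.1
  refine ⟨prob_lift κ ν, fun ν' hν' => ?_⟩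
  have hp : IsProbabilityMeasure (ν'.map tail) :=
    Measure.isProbabilityMeasure_map measurable_tail.aemeasurable
  calc ∑ i, ENNReal.ofReal (w i) * W2sq (lift κ ν) (lift κ (μ i))
      ≤ ∑ i, ENNReal.ofReal (w i) * W2sq ν (μ i) := by
        refine Finset.sum_le_sum fun i _ => ?_
        gcongr
        exact W2sq_lift κ (μ i) ν
    _ ≤ ∑ i, ENNReal.ofReal (w i) * W2sq (ν'.map tail) (μ i) := hν.2 _ hp
    _ ≤ ∑ i, ENNReal.ofReal (w i) * W2sq ν' (lift κ (μ i)) := by
        refine Finset.sum_le_sum fun i _ => ?_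
        gcongr
        exact W2sq_tail κ (μ i) ν'

end BAR

end Pool.Agent.H17PB
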