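import Pool.Agent.Results.MP_7c2736_pr.NoPoincareBound

/-!
# Products with a Gaussian factor (for MP_7c2736_pr, Q2)
-/

set_option autoImplicit false

namespace Pool.Agent.H17PB

open MeasureTheory ProbabilityTheory
open Pool.Agent.Results.MP_7c2736_pr.NoPoincareBound
open scoped ENNReal ContDiff

/-- the point `(t, y)` of `ℝⁿ⁺¹ = ℝ × ℝⁿ` -/
noncomputable def J {n : ℕ} (p : ℝ × E n) : E (n + 1) :=
  WithLp.toLp 2 (Fin.cons p.1 (fun i => p.2 i) : Fin (n + 1) → ℝ)

/-- the last `n` coordinates of a point of `ℝⁿ⁺¹` -/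
noncomputable def tail {n : ℕ} (x : E (n + 1)) : E n :=
  WithLp.toLp 2 (fun i : Fin n => x i.succ)

/-- the product of the centred Gaussian measure of variance `1 / κ` on `ℝ` and `μ` -/
noncomputable def lift {n : ℕ} (κ : ℝ) (μ : Measure (E n)) : Measure (E (n + 1)) :=
  ((gaussianReal 0 (Real.toNNReal κ⁻¹)).prod μ).map J

/-- `μ` splits off a curvature-saturating Gaussian factor in direction `e` (`κ` is the convexity
constant of `μ`): under `ℝⁿ = ℝ e ⊕ e^⊥` it is the product of the Gaussian measure with mean `⟪e, m⟫`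
(`m` is the mean of `μ`) and variance `1 / κ` and of a probability measure `ν` on `e^⊥`, given as a
measure on `ℝⁿ` with `⟪e, y⟫ = 0` almost everywhere. -/
def SplitsOff {n : ℕ} (κ : ℝ) (μ : Measure (E n)) (e : E n) : Prop :=
  ∃ ν : Measure (E n), IsProbabilityMeasure ν ∧ (∀ᵐ y ∂ν, inner ℝ e y = 0) ∧
    μ = ((gaussianReal (inner ℝ e (∫ x, x ∂μ)) (Real.toNNReal κ⁻¹)).prod ν).map
      fun p => p.1 • e + p.2

end Pool.Agent.H17PB
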