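import Pool.Agent.H17PB.Stm

set_option autoImplicit false

namespace Pool.Agent.H17PB

namespace PoiAux

open MeasureTheory ProbabilityTheory Filter Topology
open Pool.Agent.Results.MP_7c2736_pr.NoPoincareBound
open scoped ENNReal ContDiff

variable {n : ℕ}

lemma continuous_J : Continuous (J (n := n)) := by
  unfold J
  refine (PiLp.continuous_toLp 2 _).comp ?_
  refine continuous_pi fun i => ?_
  refine Fin.cases ?_ (fun j => ?_) i
  · simpa using continuous_fst
  · simp only [Fin.cons_succ]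
    fun_prop

lemma J_zero (p : ℝ × E n) : J p 0 = p.1 := rfl

lemma tail_J (p : ℝ × E n) : tail (J p) = p.2 := by
  ext i
  rfl

lemma J_tail (x : E (n + 1)) : J (x 0, tail x) = x := by
  ext i
  refine Fin.cases ?_ (fun j => ?_) i
  · rfl
  · rfl

/-- `tail` as a linear map -/
noncomputable def tlL : E (n + 1) →ₗ[ℝ] E n where
  toFun := tail
  map_add' x y := by ext i; rfl
  map_smul' c x := by ext i; rfl

lemma norm_tail_le (x : E (n + 1)) : ‖tail x‖ ≤ ‖x‖ := by
  rw [EuclideanSpace.norm_eq, EuclideanSpace.norm_eq]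
  apply Real.sqrt_le_sqrt
  rw [Fin.sum_univ_succ]
  have : (0 : ℝ) ≤ ‖x 0‖ ^ 2 := by positivity
  have h : ∑ i, ‖tail x i‖ ^ 2 = ∑ i : Fin n, ‖x i.succ‖ ^ 2 := rfl
  linarith

/-- `tail` as a continuous linear map -/
noncomputable def tl : E (n + 1) →L[ℝ] E n := tlL.mkContinuous 1 fun x => by
  rw [one_mul]; exact norm_tail_le x

lemma tl_apply (x : E (n + 1)) : tl x = tail x := rfl

lemma norm_tl_le : ‖(tl : E (n + 1) →L[ℝ] E n)‖ ≤ 1 :=
  LinearMap.mkContinuous_norm_le _ zero_le_one _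

/-- the first coordinate -/
noncomputable def p0L : E (n + 1) →ₗ[ℝ] ℝ where
  toFun x := x 0
  map_add' _ _ := rfl
  map_smul' _ _ := rfl

lemma norm_p0_le (x : E (n + 1)) : ‖x 0‖ ≤ ‖x‖ := PiLp.norm_apply_le x 0

noncomputable def p0 : E (n + 1) →L[ℝ] ℝ := p0L.mkContinuous 1 fun x => by
  rw [one_mul]; exact norm_p0_le x

lemma p0_apply (x : E (n + 1)) : p0 x = x 0 := rfl

lemma norm_p0L_le : ‖(p0 : E (n + 1) →L[ℝ] ℝ)‖ ≤ 1 :=
  LinearMap.mkContinuous_norm_le _ zero_le_one _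

/-- the cutoff -/
noncomputable def chi : ContDiffBump (0 : ℝ) := ⟨1, 2, one_pos, one_lt_two⟩

lemma contDiff_chi : ContDiff ℝ ∞ (chi : ℝ → ℝ) := chi.contDiff

/-- the test function -/
noncomputable def F (f : E n → ℝ) (R : ℝ) (x : E (n + 1)) : ℝ := chi (x 0 / R) * f (tail x)

lemma F_J (f : E n → ℝ) (R : ℝ) (p : ℝ × E n) : F f R (J p) = chi (p.1 / R) * f p.2 := by
  unfold F
  rw [J_zero, tail_J]

lemma contDiff_F {f : E n → ℝ} (hf : ContDiff ℝ ∞ f) (R : ℝ) : ContDiff ℝ ∞ (F f R) := by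
  unfold F
  have h1 : ContDiff ℝ ∞ (fun x : E (n + 1) => chi (p0 x / R)) :=
    chi.contDiff.comp (p0.contDiff.div_const R)
  have h2 : ContDiff ℝ ∞ (fun x : E (n + 1) => f (tl x)) := hf.comp tl.contDiff
  exact h1.mul h2

lemma hasCompactSupport_F {f : E n → ℝ} (hf : HasCompactSupport f) {R : ℝ} (hR : 0 < R) :
    HasCompactSupport (F f R) := by
  have hK : IsCompact (J (n := n) '' (Set.Icc (-(2 * R)) (2 * R) ×ˢ tsupport f)) :=
    (isCompact_Icc.prod hf).image continuous_J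
  refine HasCompactSupport.intro hK fun x hx => ?_
  by_contra hne
  apply hx
  unfold F at hne
  have h1 : chi (x 0 / R) ≠ 0 := left_ne_zero_of_mul hne
  have h2 : f (tail x) ≠ 0 := right_ne_zero_of_mul hne
  refine ⟨(x 0, tail x), ⟨?_, subset_tsupport _ h2⟩, J_tail x⟩
  have h3 : x 0 / R ∈ Function.support chi := h1
  rw [ContDiffBump.support_eq, Metric.mem_ball, dist_zero_right, Real.norm_eq_abs, abs_div,
    abs_of_pos hR, div_lt_iff₀ hR] at h3
  have h4 : |x 0| < 2 * R := h3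
  have := abs_lt.mp h4
  exact ⟨this.1.le, this.2.le⟩

lemma fderiv_F {f : E n → ℝ} (hf : ContDiff ℝ ∞ f) (R : ℝ) (x : E (n + 1)) :
    fderiv ℝ (F f R) x = chi (x 0 / R) • (fderiv ℝ f (tail x)).comp tl +
      (f (tail x)) • ((deriv chi (x 0 / R) / R) • p0) := by
  have hd : DifferentiableAt ℝ f (tl x) := (hf.differentiable (by simp)) _
  have h2 : HasFDerivAt (fun x : E (n + 1) => f (tl x)) ((fderiv ℝ f (tl x)).comp tl) x :=
    hd.hasFDerivAt.comp x tl.hasFDerivAt
  have h1 : HasFDerivAt (fun x : E (n + 1) => chi (p0 x / R)) ((deriv chi (p0 x / R) / R) • p0)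
      x := by
    have ha : HasFDerivAt (fun x : E (n + 1) => p0 x / R) (R⁻¹ • p0) x := by
      have h3 := (p0.hasFDerivAt (x := x)).const_smul R⁻¹
      have h4 : (fun x : E (n + 1) => p0 x / R) = R⁻¹ • ⇑(p0 : E (n + 1) →L[ℝ] ℝ) := by
        funext y
        simp only [Pi.smul_apply, smul_eq_mul, div_eq_inv_mul]
      rw [h4]
      exact h3
    have hc : DifferentiableAt ℝ chi (p0 x / R) :=
      (contDiff_chi).differentiable (by simp) _
    have := hc.hasDerivAt.comp_hasFDerivAt x ha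
    rw [smul_smul, ← div_eq_mul_inv] at this
    exact this
  have := h1.mul h2
  exact this.fderiv

lemma exists_bound_chi : ∃ K : ℝ, 0 ≤ K ∧ ∀ t, |deriv chi t| ≤ K := by
  have hc : Continuous (deriv chi) :=
    contDiff_chi.continuous_deriv (by simp)
  have hs : HasCompactSupport (deriv chi) := chi.hasCompactSupport.deriv
  obtain ⟨K, hK⟩ := hc.bounded_above_of_compact_support hs
  exact ⟨K, (norm_nonneg _).trans (hK 0), hK⟩

lemma norm_fderiv_F_le {f : E n → ℝ} (hf : ContDiff ℝ ∞ f) {R A K : ℝ} (hR : 0 < R)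
    (hA : ∀ y, |f y| ≤ A) (hK0 : 0 ≤ K) (hK : ∀ t, |deriv chi t| ≤ K) (x : E (n + 1)) :
    ‖fderiv ℝ (F f R) x‖ ≤ ‖fderiv ℝ f (tail x)‖ + A * K / R := by
  have hA0 : 0 ≤ A := (abs_nonneg _).trans (hA 0)
  rw [fderiv_F hf]
  refine (norm_add_le _ _).trans (add_le_add ?_ ?_)
  · rw [norm_smul, Real.norm_eq_abs, abs_of_nonneg chi.nonneg]
    calc chi (x 0 / R) * ‖(fderiv ℝ f (tail x)).comp tl‖
        ≤ 1 * (‖fderiv ℝ f (tail x)‖ * 1) := by
          refine mul_le_mul chi.le_one ?_ (norm_nonneg _) zero_le_one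
          exact (ContinuousLinearMap.opNorm_comp_le _ _).trans
            (mul_le_mul_of_nonneg_left norm_tl_le (norm_nonneg _))
      _ = ‖fderiv ℝ f (tail x)‖ := by ring
  · rw [norm_smul, norm_smul, Real.norm_eq_abs, Real.norm_eq_abs, abs_div, abs_of_pos hR]
    calc |f (tail x)| * (|deriv chi (x 0 / R)| / R * ‖p0‖)
        ≤ A * (K / R * 1) := by
          refine mul_le_mul (hA _) ?_ (by positivity) hA0
          refine mul_le_mul ?_ norm_p0L_le (norm_nonneg _) (by positivity)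
          exact div_le_div_of_nonneg_right (hK _) hR.le
      _ = A * K / R := by ring

variable {κ : ℝ} {ν : Measure (E n)}

instance [IsProbabilityMeasure ν] : IsProbabilityMeasure (lift κ ν) :=
  Measure.isProbabilityMeasure_map continuous_J.measurable.aemeasurable

lemma lintegral_tail [IsProbabilityMeasure ν] {g : E n → ℝ≥0∞} (hg : Measurable g) :
    ∫⁻ x, g (tail x) ∂(lift κ ν) = ∫⁻ y, g y ∂ν := by
  unfold lift
  have htm : Measurable (tail : E (n + 1) → E n) := (tl (n := n)).continuous.measurable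
  have h0 := lintegral_map (μ := (gaussianReal 0 (Real.toNNReal κ⁻¹)).prod ν) (hg.comp htm)
    continuous_J.measurable
  simp only [Function.comp_def] at h0
  rw [h0]
  have h1 : ∀ p : ℝ × E n, g (tail (J p)) = g p.2 := fun p => by rw [tail_J]
  simp_rw [h1]
  rw [← lintegral_map hg measurable_snd, Measure.map_snd_prod, measure_univ, one_smul]

lemma integral_F_mul [IsProbabilityMeasure ν] {φ : ℝ → ℝ} {g : E n → ℝ}
    (hφ : Continuous φ) (hg : Continuous g) :
    ∫ x, φ (x 0) * g (tail x) ∂(lift κ ν) =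
      (∫ t, φ t ∂(gaussianReal 0 (Real.toNNReal κ⁻¹))) * ∫ y, g y ∂ν := by
  unfold lift
  have hc : Continuous fun x : E (n + 1) => φ (x 0) * g (tail x) := by
    have h0 : Continuous fun x : E (n + 1) => x 0 := (p0 (n := n)).continuous
    have h1 : Continuous (tail : E (n + 1) → E n) := (tl (n := n)).continuous
    exact (hφ.comp h0).mul (hg.comp h1)
  rw [integral_map continuous_J.measurable.aemeasurable hc.aestronglyMeasurable]
  simp_rw [tail_J, J_zero]
  exact integral_prod_mul φ g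

lemma tendsto_chi {γ : Measure ℝ} [IsProbabilityMeasure γ] (m : ℕ) :
    Tendsto (fun k : ℕ => ∫ t, chi (t / ((k : ℝ) + 1)) ^ m ∂γ) atTop (𝓝 1) := by
  have h1 : (1 : ℝ) = ∫ _t : ℝ, (1 : ℝ) ∂γ := by simp
  rw [h1]
  refine tendsto_integral_of_dominated_convergence (fun _ => 1) ?_ (integrable_const _) ?_ ?_
  · intro k
    exact ((chi.continuous.comp (continuous_id.div_const _)).pow m).aestronglyMeasurable
  · intro k
    filter_upwards with t
    rw [Real.norm_eq_abs, abs_pow, abs_of_nonneg chi.nonneg]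
    exact pow_le_one₀ chi.nonneg chi.le_one
  · filter_upwards with t
    have h2 : Tendsto (fun k : ℕ => t / ((k : ℝ) + 1)) atTop (𝓝 0) :=
      tendsto_const_div_atTop_nhds_zero_nat t |>.comp (tendsto_add_atTop_nat 1) |>.congr fun k => by
        simp
    have h3 : Tendsto (fun k : ℕ => chi (t / ((k : ℝ) + 1))) atTop (𝓝 (chi 0)) :=
      (chi.continuous.tendsto 0).comp h2
    have h4 : chi 0 = 1 := chi.one_of_mem_closedBall (by simp [chi])
    rw [h4] at h3
    simpa using h3.pow m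

end PoiAux

namespace POI

open MeasureTheory ProbabilityTheory Filter Topology
open Pool.Agent.Results.MP_7c2736_pr.NoPoincareBound
open scoped ENNReal ContDiff
open PoiAux

theorem t : Pool.Agent.H17PB.POI := by
  intro n κ ν _ hν
  unfold poincareConst
  refine le_sInf fun C hC => ?_
  rcases eq_or_ne C ⊤ with rfl | hCt
  · exact le_top
  refine sInf_le fun f hf hfs => ?_
  obtain ⟨A, hA⟩ := hf.continuous.bounded_above_of_compact_support hfs
  have hdc : Continuous (fderiv ℝ f) := hf.continuous_fderiv (by simp)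
  obtain ⟨B, hB⟩ := hdc.bounded_above_of_compact_support (hfs.fderiv ℝ)
  obtain ⟨K, hK0, hK⟩ := exists_bound_chi
  have hA0 : 0 ≤ A := (norm_nonneg _).trans (hA 0)
  have hB0 : 0 ≤ B := (norm_nonneg _).trans (hB 0)
  have hgr : ∀ {m : ℕ} (g : E m → ℝ) (x : E m), ‖gradient g x‖ₑ = ‖fderiv ℝ g x‖ₑ := by
    intro m g x
    unfold gradient
    rw [← ofReal_norm, ← ofReal_norm, LinearIsometryEquiv.norm_map]
  -- the variance of the test function
  set γ : Measure ℝ := gaussianReal 0 (Real.toNNReal κ⁻¹) with hγ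
  have hvar : ∀ k : ℕ, ∫ x, (F f ((k : ℝ) + 1) x - ∫ y, F f ((k : ℝ) + 1) y ∂(lift κ ν)) ^ 2
      ∂(lift κ ν) = (∫ t, chi (t / ((k : ℝ) + 1)) ^ 2 ∂γ) * (∫ y, f y ^ 2 ∂ν) -
        ((∫ t, chi (t / ((k : ℝ) + 1)) ^ 1 ∂γ) * ∫ y, f y ∂ν) ^ 2 := by
    intro k
    have hR : (0 : ℝ) < (k : ℝ) + 1 := by positivity
    have hFc : Continuous (F f ((k : ℝ) + 1)) := (contDiff_F hf _).continuous
    have hFs : HasCompactSupport (F f ((k : ℝ) + 1)) := hasCompactSupport_F hfs hR
    have hmem : MemLp (F f ((k : ℝ) + 1)) 2 (lift κ ν) := hFc.memLp_of_hasCompactSupport hFs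
    rw [← variance_eq_integral hmem.aestronglyMeasurable.aemeasurable, variance_eq_sub hmem]
    congr 1
    · have h2 : (F f ((k : ℝ) + 1) ^ 2) = fun x : E (n + 1) =>
          (fun t : ℝ => chi (t / ((k : ℝ) + 1)) ^ 2) (x 0) * (fun y => f y ^ 2) (tail x) := by
        funext x
        simp only [Pi.pow_apply, F]
        ring
      rw [h2]
      exact integral_F_mul ((chi.continuous.comp (continuous_id.div_const _)).pow 2)
        (hf.continuous.pow 2)
    · congr 1
      have h2 : F f ((k : ℝ) + 1) = fun x : E (n + 1) =>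
          (fun t : ℝ => chi (t / ((k : ℝ) + 1)) ^ 1) (x 0) * f (tail x) := by
        funext x
        simp only [F]
        ring
      rw [h2]
      exact integral_F_mul ((chi.continuous.comp (continuous_id.div_const _)).pow 1)
        hf.continuous
  have hvarf : ∫ x, (f x - ∫ y, f y ∂ν) ^ 2 ∂ν = (∫ y, f y ^ 2 ∂ν) - (∫ y, f y ∂ν) ^ 2 := by
    have hmem : MemLp f 2 ν := hf.continuous.memLp_of_hasCompactSupport hfs
    rw [← variance_eq_integral hmem.aestronglyMeasurable.aemeasurable, variance_eq_sub hmem]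
    rfl
  -- the energy
  have hen : ∀ k : ℕ, ∫⁻ x, ‖gradient (F f ((k : ℝ) + 1)) x‖ₑ ^ 2 ∂(lift κ ν) ≤
      (∫⁻ y, ‖gradient f y‖ₑ ^ 2 ∂ν) +
        ENNReal.ofReal ((2 * B * (A * K) + (A * K) ^ 2) / ((k : ℝ) + 1)) := by
    intro k
    have hR : (0 : ℝ) < (k : ℝ) + 1 := by positivity
    have hR1 : (1 : ℝ) ≤ (k : ℝ) + 1 := by linarith [Nat.cast_nonneg (α := ℝ) k]
    simp_rw [hgr]
    have hm : Measurable fun y : E n => ‖fderiv ℝ f y‖ₑ ^ 2 :=
      (hdc.measurable.enorm).pow_const 2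
    rw [← lintegral_tail (κ := κ) hm]
    have h1 : ∀ x : E (n + 1), ‖fderiv ℝ (F f ((k : ℝ) + 1)) x‖ₑ ^ 2 ≤
        ‖fderiv ℝ f (tail x)‖ₑ ^ 2 +
          ENNReal.ofReal ((2 * B * (A * K) + (A * K) ^ 2) / ((k : ℝ) + 1)) := by
      intro x
      have h2 := norm_fderiv_F_le hf hR hA hK0 hK x
      rw [← ofReal_norm, ← ofReal_norm, ← ENNReal.ofReal_pow (norm_nonneg _),
        ← ENNReal.ofReal_pow (norm_nonneg _), ← ENNReal.ofReal_add (by positivity) (by positivity)]
      apply ENNReal.ofReal_le_ofReal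
      have h3 := hB (tail x)
      set a := ‖fderiv ℝ f (tail x)‖ with ha
      have ha0 : 0 ≤ a := norm_nonneg _
      calc ‖fderiv ℝ (F f ((k : ℝ) + 1)) x‖ ^ 2 ≤ (a + A * K / ((k : ℝ) + 1)) ^ 2 :=
            pow_le_pow_left₀ (norm_nonneg _) h2 2
        _ = a ^ 2 + (2 * a * (A * K) + (A * K) ^ 2 / ((k : ℝ) + 1)) / ((k : ℝ) + 1) := by
            field_simp
            ring
        _ ≤ a ^ 2 + (2 * B * (A * K) + (A * K) ^ 2) / ((k : ℝ) + 1) := by
            have h4 : (A * K) ^ 2 / ((k : ℝ) + 1) ≤ (A * K) ^ 2 := div_le_self (by positivity) hR1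
            have h5 : 2 * a * (A * K) ≤ 2 * B * (A * K) :=
              mul_le_mul_of_nonneg_right (by linarith) (by positivity)
            gcongr
    calc ∫⁻ x, ‖fderiv ℝ (F f ((k : ℝ) + 1)) x‖ₑ ^ 2 ∂(lift κ ν)
        ≤ ∫⁻ x, (‖fderiv ℝ f (tail x)‖ₑ ^ 2 +
          ENNReal.ofReal ((2 * B * (A * K) + (A * K) ^ 2) / ((k : ℝ) + 1))) ∂(lift κ ν) :=
          lintegral_mono h1
      _ = _ := by
          rw [lintegral_add_right _ measurable_const, lintegral_const, measure_univ, mul_one]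
  rw [hvarf]
  have hL : Tendsto (fun k : ℕ => ENNReal.ofReal
      ((∫ t, chi (t / ((k : ℝ) + 1)) ^ 2 ∂γ) * (∫ y, f y ^ 2 ∂ν) -
        ((∫ t, chi (t / ((k : ℝ) + 1)) ^ 1 ∂γ) * ∫ y, f y ∂ν) ^ 2)) atTop
      (𝓝 (ENNReal.ofReal ((∫ y, f y ^ 2 ∂ν) - (∫ y, f y ∂ν) ^ 2))) := by
    refine ENNReal.tendsto_ofReal ?_
    have h1 := ((tendsto_chi (γ := γ) 2).mul_const (∫ y, f y ^ 2 ∂ν)).sub
      (((tendsto_chi (γ := γ) 1).mul_const (∫ y, f y ∂ν)).pow 2)
    simpa only [one_mul] using h1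
  have hRt : Tendsto (fun k : ℕ => C * ((∫⁻ y, ‖gradient f y‖ₑ ^ 2 ∂ν) +
      ENNReal.ofReal ((2 * B * (A * K) + (A * K) ^ 2) / ((k : ℝ) + 1)))) atTop
      (𝓝 (C * ((∫⁻ y, ‖gradient f y‖ₑ ^ 2 ∂ν) + 0))) := by
    refine ENNReal.Tendsto.const_mul ?_ (Or.inr hCt)
    refine tendsto_const_nhds.add ?_
    have h1 : Tendsto (fun k : ℕ => (2 * B * (A * K) + (A * K) ^ 2) / ((k : ℝ) + 1)) atTop
        (𝓝 0) :=
      tendsto_const_div_atTop_nhds_zero_nat (2 * B * (A * K) + (A * K) ^ 2)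
        |>.comp (tendsto_add_atTop_nat 1) |>.congr fun k => by simp
    simpa using ENNReal.tendsto_ofReal h1
  rw [add_zero] at hRt
  refine le_of_tendsto_of_tendsto' hL hRt fun k => ?_
  rw [← hvar k]
  have hR : (0 : ℝ) < (k : ℝ) + 1 := by positivity
  refine (hC (F f ((k : ℝ) + 1)) (contDiff_F hf _) (hasCompactSupport_F hfs hR)).trans ?_
  gcongr
  exact hen k

end POI

end Pool.Agent.H17PB
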