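import Pool.Agent.H17PB.Stm

/-!
# Stub SLC: Gaussian times strongly log-concave
-/

set_option autoImplicit false

namespace Pool.Agent.H17PB.SLC

open MeasureTheory ProbabilityTheory
open Pool.Agent.Results.MP_7c2736_pr.NoPoincareBound
open Pool.Agent.H17PB
open scoped ENNReal ContDiff

/-- the equivalence -/
noncomputable def Eq (n : ℕ) : (ℝ × E n) ≃ᵐ E (n + 1) :=
  ((MeasurableEquiv.refl ℝ).prodCongr (MeasurableEquiv.toLp 2 (Fin n → ℝ)).symm).trans
    ((MeasurableEquiv.piFinSuccAbove (fun _ => ℝ) 0).symm.trans (MeasurableEquiv.toLp 2 (Fin (n + 1) → ℝ)))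

theorem Eq_apply {n : ℕ} (p : ℝ × E n) : Eq n p = J p := by
  refine PiLp.ext fun i => ?_
  refine Fin.cases ?_ (fun j => ?_) i
  · rfl
  · rfl

theorem J_mp (n : ℕ) : MeasurePreserving (J : ℝ × E n → E (n + 1)) (volume.prod volume) volume := by
  have h1 : MeasurePreserving (Prod.map (id : ℝ → ℝ) (MeasurableEquiv.toLp 2 (Fin n → ℝ)).symm)
      (volume.prod volume) (volume.prod volume) :=
    (MeasurePreserving.id volume).prod (EuclideanSpace.volume_preserving_symm_measurableEquiv_toLp (Fin n))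
  have h2 := (volume_preserving_piFinSuccAbove (fun _ : Fin (n + 1) => ℝ) 0).symm
  have h3 := PiLp.volume_preserving_toLp (Fin (n + 1))
  have h4 := h3.comp (h2.comp h1)
  have h5 : (J : ℝ × E n → E (n + 1)) = _ := funext fun p => (Eq_apply p).symm
  rw [h5]
  exact h4

theorem J_emb (n : ℕ) : MeasurableEmbedding (J : ℝ × E n → E (n + 1)) := by
  have h5 : (J : ℝ × E n → E (n + 1)) = Eq n := funext fun p => (Eq_apply p).symm
  rw [h5]
  exact (Eq n).measurableEmbedding

theorem J_zero {n : ℕ} (p : ℝ × E n) : J p 0 = p.1 := rfl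

theorem tail_J {n : ℕ} (p : ℝ × E n) : tail (J p) = p.2 := rfl

theorem norm_sq' {n : ℕ} (x : E (n + 1)) : ‖x‖ ^ 2 = x 0 ^ 2 + ‖tail x‖ ^ 2 := by
  rw [EuclideanSpace.norm_sq_eq, EuclideanSpace.norm_sq_eq, Fin.sum_univ_succ]
  simp only [Real.norm_eq_abs, sq_abs]
  rfl

theorem tail_cont {n : ℕ} : Continuous (tail : E (n + 1) → E n) := by
  unfold tail
  fun_prop

theorem tail_lin {n : ℕ} (a b : ℝ) (x y : E (n + 1)) : tail (a • x + b • y) = a • tail x + b • tail y := rfl

/-- the new potential -/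
noncomputable def VV {n : ℕ} (κ : ℝ) (V : E n → EReal) (x : E (n + 1)) : EReal :=
  ((κ * x 0 ^ 2 / 2 : ℝ) : EReal) + V (tail x)

theorem VV_sub {n : ℕ} (κ : ℝ) (V : E n → EReal) (x : E (n + 1)) :
    VV κ V x - ((κ * ‖x‖ ^ 2 / 2 : ℝ) : EReal) = V (tail x) - ((κ * ‖tail x‖ ^ 2 / 2 : ℝ) : EReal) := by
  unfold VV
  rw [norm_sq']
  induction V (tail x) using EReal.rec with
  | bot => simp
  | top => simp
  | coe v =>
    norm_cast
    ring

theorem exp_VV {n : ℕ} (κ : ℝ) (V : E n → EReal) (x : E (n + 1)) :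
    EReal.exp (-VV κ V x) = ENNReal.ofReal (Real.exp (-(κ * x 0 ^ 2 / 2))) * EReal.exp (-V (tail x)) := by
  unfold VV
  rw [EReal.neg_add (Or.inl (EReal.coe_ne_bot _)) (Or.inl (EReal.coe_ne_top _)), sub_eq_add_neg, EReal.exp_add,
    ← EReal.coe_neg, EReal.exp_coe]

theorem t : Pool.Agent.H17PB.SLC := by
  intro n κ μ hκ hμ ⟨V, hV1, ⟨x1, hx1⟩, hV3, hV4, hV5, hV6, hV7⟩
  have hVm : Measurable V := hV3.measurable
  have hem : Measurable fun y : E n => EReal.exp (-V y) := by
    fun_prop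
  set h : E n → ℝ≥0∞ := fun y => EReal.exp (-V y) with hh
  set g : ℝ → ℝ≥0∞ := fun s => ENNReal.ofReal (Real.exp (-(κ * s ^ 2 / 2))) with hg
  have hgm : Measurable g := by
    fun_prop
  set Z := ∫⁻ y, h y with hZ
  -- the Gaussian
  have hv : Real.toNNReal κ⁻¹ ≠ 0 := by
    rw [Ne, Real.toNNReal_eq_zero, not_le]
    positivity
  have hv2 : ((Real.toNNReal κ⁻¹ : NNReal) : ℝ) = κ⁻¹ := Real.coe_toNNReal _ (by positivity)
  set c : ℝ≥0∞ := ENNReal.ofReal (√(2 * Real.pi * κ⁻¹))⁻¹ with hc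
  have hpdf : ∀ s, gaussianPDF 0 (Real.toNNReal κ⁻¹) s = c * g s := by
    intro s
    rw [gaussianPDF, gaussianPDFReal, hv2, ENNReal.ofReal_mul (by positivity)]
    congr 3
    field_simp
    ring
  have hcg : c * ∫⁻ s, g s = 1 := by
    rw [← lintegral_const_mul _ hgm, ← lintegral_gaussianPDF_eq_one 0 hv]
    exact lintegral_congr fun s => (hpdf s).symm
  have hG0 : ∫⁻ s, g s ≠ 0 := by
    intro h0
    rw [h0, mul_zero] at hcg
    exact zero_ne_one hcg
  have hc0 : c ≠ 0 := by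
    intro h0
    rw [h0, zero_mul] at hcg
    exact zero_ne_one hcg
  have hGt : ∫⁻ s, g s ≠ ⊤ := by
    intro h0
    rw [h0, ENNReal.mul_top hc0] at hcg
    exact ENNReal.top_ne_one hcg
  have hc' : c = (∫⁻ s, g s)⁻¹ := ENNReal.eq_inv_of_mul_eq_one_left hcg
  -- the total mass
  have hZ' : ∫⁻ x : E (n + 1), EReal.exp (-VV κ V x) = (∫⁻ s, g s) * Z := by
    rw [← (J_mp n).lintegral_comp_emb (J_emb n), hZ, ← lintegral_prod_mul hgm.aemeasurable hem.aemeasurable]
    refine lintegral_congr fun p => ?_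
    rw [exp_VV, J_zero, tail_J]
  refine ⟨VV κ V, ?_, ⟨J (0, x1), ?_⟩, ?_, ?_, ?_, ?_, ?_⟩
  · intro x
    unfold VV
    rw [EReal.add_ne_bot_iff]
    exact ⟨EReal.coe_ne_bot _, hV1 _⟩
  · unfold VV
    exact EReal.add_ne_top (EReal.coe_ne_top _) hx1
  · unfold VV
    refine LowerSemicontinuous.add' ?_ (LowerSemicontinuous.comp hV3 tail_cont) ?_
    · refine Continuous.lowerSemicontinuous ?_
      refine continuous_coe_real_ereal.comp ?_
      fun_prop
    · intro x
      exact EReal.continuousAt_add (Or.inl (EReal.coe_ne_top _)) (Or.inl (EReal.coe_ne_bot _))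
  · intro x y a b ha hb hab
    rw [VV_sub, VV_sub, VV_sub, tail_lin]
    exact hV4 _ _ a b ha hb hab
  · rw [hZ']
    exact mul_ne_zero hG0 hV5
  · rw [hZ']
    exact ENNReal.mul_ne_top hGt hV6
  · rw [hZ', ENNReal.mul_inv (Or.inl hG0) (Or.inl hGt), ← hc']
    unfold lift
    rw [gaussianReal_of_var_ne_zero 0 hv, hV7, Measure.prod_smul_right, prod_withDensity
      (measurable_gaussianPDF 0 _) hem, Measure.map_smul]
    rw [mul_comm, mul_smul]
    congr 1
    ext s hs
    rw [Measure.map_apply (J_mp n).measurable hs, withDensity_apply _ ((J_mp n).measurable hs), Measure.smul_apply,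
      withDensity_apply _ hs, ← (J_mp n).setLIntegral_comp_preimage_emb (J_emb n), smul_eq_mul,
      ← lintegral_const_mul]
    · refine lintegral_congr fun p => ?_
      rw [hpdf, exp_VV, J_zero, tail_J, mul_assoc]
    · have e : Measurable fun p : ℝ × E n => EReal.exp (-VV κ V (J p)) := by
        have e2 : (fun p : ℝ × E n => EReal.exp (-VV κ V (J p))) = fun p => g p.1 * h p.2 :=
          funext fun p => by rw [exp_VV, J_zero, tail_J]
        rw [e2]
        exact (hgm.comp measurable_fst).mul (hem.comp measurable_snd)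
      exact e

end Pool.Agent.H17PB.SLC
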