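import Pool.Agent.H17PB.BAR

set_option autoImplicit false

namespace Pool.Agent.H17PB

open MeasureTheory ProbabilityTheory
open Pool.Agent.Results.MP_7c2736_pr.NoPoincareBound
open scoped ENNReal ContDiff

namespace SPL

open BAR

variable {n : ℕ}

theorem inner_e (x : E (n + 1)) : inner ℝ (EuclideanSpace.single 0 1 : E (n + 1)) x = x 0 := by
  rw [EuclideanSpace.inner_single_left]
  simp

/-- the embedding of `ℝⁿ` as the complement of the first coordinate -/
noncomputable def φ (y : E n) : E (n + 1) := J (0, y)

theorem measurable_φ : Measurable (φ : E n → _) :=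
  measurable_J.comp (by fun_prop)

theorem mean_zero (κ : ℝ) (μ : Measure (E n)) [IsProbabilityMeasure μ] :
    inner ℝ (EuclideanSpace.single 0 1 : E (n + 1)) (∫ x, x ∂(lift κ μ)) = 0 := by
  by_cases hi : Integrable (fun x : E (n + 1) => x) (lift κ μ)
  · rw [← integral_inner hi]
    simp_rw [inner_e]
    unfold lift
    rw [integral_map measurable_J.aemeasurable (by fun_prop)]
    simp_rw [J_zero]
    have h := integral_prod_mul (μ := gaussianReal 0 (Real.toNNReal κ⁻¹)) (ν := μ)
      (fun t : ℝ => t) (fun _ : E n => (1 : ℝ))
    simp only [mul_one] at h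
    rw [h]
    simp
  · rw [integral_undef hi, inner_zero_right]

theorem t : Pool.Agent.H17PB.SPL := by
  intro n κ μ hκ hμ
  refine ⟨μ.map φ, Measure.isProbabilityMeasure_map measurable_φ.aemeasurable, ?_, ?_⟩
  · rw [ae_map_iff measurable_φ.aemeasurable]
    · refine Filter.Eventually.of_forall fun y => ?_
      rw [inner_e]
      simp [φ]
    · have hm : Measurable fun y : E (n + 1) =>
          inner ℝ (EuclideanSpace.single 0 1 : E (n + 1)) y := by fun_prop
      exact hm (measurableSet_singleton 0)
  rw [mean_zero]
  set G : ℝ × E (n + 1) → E (n + 1) :=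
    fun p => p.1 • (EuclideanSpace.single 0 1 : E (n + 1)) + p.2 with hG
  have hGm : Measurable G := by
    rw [hG]
    fun_prop
  have e : (J : ℝ × E n → E (n + 1)) = G ∘ Prod.map id φ := by
    funext p
    ext i
    simp only [hG, Function.comp, Prod.map_fst, Prod.map_snd, φ, id]
    refine Fin.cases ?_ (fun j => ?_) i
    · simp
    · simp
  unfold lift
  rw [e, ← Measure.map_map hGm (measurable_id.prodMap measurable_φ),
    ← Measure.map_prod_map _ _ measurable_id measurable_φ, Measure.map_id]

end SPL

end Pool.Agent.H17PB
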