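import Pool.Agent.H17PB.BAR
import Pool.Agent.H17PB.SPL
import Pool.Agent.H17PB.SLC
import Pool.Agent.H17PB.POI

set_option autoImplicit false

namespace Pool.Agent.H17PB

open MeasureTheory ProbabilityTheory
open Pool.Agent.Results.MP_7c2736_pr.NoPoincareBound
open scoped ENNReal ContDiff

/-- the hypotheses of Q2: weights, constants, strongly log-concave probability measures and a
barycenter of them -/
def Setting {n N : ℕ} (w κ : Fin N → ℝ) (μ : Fin N → Measure (E n)) (ν : Measure (E n)) : Prop :=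
  (∀ i, 0 < w i) ∧ ∑ i, w i = 1 ∧ (∀ i, 0 < κ i) ∧ (∀ i, IsProbabilityMeasure (μ i)) ∧
    (∀ i, StronglyLogConcave (κ i) (μ i)) ∧ IsBarycenter w μ ν

/-- all the measures `μ i` split off a curvature-saturating Gaussian factor in one direction -/
def CommonFactor {n N : ℕ} (κ : Fin N → ℝ) (μ : Fin N → Measure (E n)) : Prop :=
  ∃ e : E n, ‖e‖ = 1 ∧ ∀ i, SplitsOff (κ i) (μ i) e

/-- the right side `∑ w i / √(κ i)` of the inequality of Q1 -/
noncomputable def rhs {N : ℕ} (w κ : Fin N → ℝ) : ℝ := ∑ i, w i / √(κ i)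

theorem main (n : ℕ) (hn : 5 ≤ n) (C : ℝ) :
    ∃ (N : ℕ) (w κ : Fin N → ℝ) (μ : Fin N → Measure (E n)) (ν : Measure (E n)),
      (∀ i, 0 < w i) ∧ ∑ i, w i = 1 ∧ (∀ i, 0 < κ i) ∧
      (∀ i, IsProbabilityMeasure (μ i)) ∧ (∀ i, StronglyLogConcave (κ i) (μ i)) ∧
      IsBarycenter w μ ν ∧
      (∃ e : E n, ‖e‖ = 1 ∧ ∀ i, SplitsOff (κ i) (μ i) e) ∧
      poincareConst ν ^ (1 / 2 : ℝ) ≠ ENNReal.ofReal (∑ i, w i / √(κ i)) ∧
      ENNReal.ofReal (C * ∑ i, w i / √(κ i)) < poincareConst ν ^ (1 / 2 : ℝ) := by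
  have hSLC : Pool.Agent.H17PB.SLC := SLC.t
  have hPOI : Pool.Agent.H17PB.POI := POI.t
  obtain ⟨m, rfl⟩ : ∃ m, n = m + 1 := ⟨n - 1, by omega⟩
  obtain ⟨N, w, κ, μ, ν, hw, hw1, -, -, hκ, hμ, hslc, hbar, hP⟩ :=
    Pool.Agent.Results.MP_7c2736_pr.NoPoincareBound.result m (by omega) (max C 1)
  have hm : (0 : ℝ) < m := by exact_mod_cast (by omega : 0 < m)
  set κ₀ : ℝ := 1 / (10 * (m : ℝ) ^ 2) with hκ₀
  have hκpos : 0 < κ₀ := by positivity
  obtain rfl : κ = fun _ => κ₀ := funext hκ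
  have hlt : ∀ D : ℝ, D ≤ max C 1 → ENNReal.ofReal (D * ∑ i, w i / √κ₀) <
      poincareConst (lift κ₀ ν) ^ (1 / 2 : ℝ) := by
    intro D hD
    have hs : 0 ≤ ∑ i, w i / √κ₀ :=
      Finset.sum_nonneg fun i _ => div_nonneg (hw i).le (Real.sqrt_nonneg _)
    refine lt_of_le_of_lt (ENNReal.ofReal_le_ofReal (mul_le_mul_of_nonneg_right hD hs))
      (lt_of_lt_of_le hP ?_)
    exact ENNReal.rpow_le_rpow (hPOI m κ₀ ν hκpos hbar.1) (by norm_num)
  refine ⟨N, w, fun _ => κ₀, fun i => lift κ₀ (μ i), lift κ₀ ν, hw, hw1, fun _ => hκpos,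
    fun i => ?_, fun i => hSLC m κ₀ (μ i) hκpos (hμ i) (hslc i),
    BAR.t m N κ₀ w μ ν hκpos hμ hbar, ⟨EuclideanSpace.single 0 1, ?_, fun i =>
      SPL.t m κ₀ (μ i) hκpos (hμ i)⟩, ?_, hlt C (le_max_left _ _)⟩
  · have := hμ i
    exact BAR.prob_lift κ₀ (μ i)
  · simp
  · have := hlt 1 (le_max_right _ _)
    rw [one_mul] at this
    exact this.ne'

end Pool.Agent.H17PB
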