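import Pool.Agent.H17PB.Defs

set_option autoImplicit false

namespace Pool.Agent.H17PB

open MeasureTheory ProbabilityTheory
open Pool.Agent.Results.MP_7c2736_pr.NoPoincareBound
open scoped ENNReal ContDiff

/-- STUB `SLC`. If `μ` is `κ`-strongly log-concave on `ℝⁿ`, so is `N(0, 1/κ) ⊗ μ` on `ℝⁿ⁺¹`.

Proof. Let `V` be the potential of `μ`. Take `V' x = ((κ x₀² / 2 : ℝ) : EReal) + V (tail x)`. It is
never `⊥`, is `≠ ⊤` at `J (0, x₁)`, is lower semicontinuous (`LowerSemicontinuous.add'` or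
`EReal` continuity of addition at `(real, anything)`). As `‖x‖² = x₀² + ‖tail x‖²`,
`V' x - κ ‖x‖² / 2 = V (tail x) - κ ‖tail x‖² / 2` (all the subtracted terms are real), so the
convexity inequality for `V'` at `x, y` is the one for `V` at `tail x`, `tail y`.
`exp (-V' x) = exp (-κ x₀²/2) * exp (-V (tail x))`. The measurable equivalence
`E (n + 1) ≃ (Fin (n + 1) → ℝ) ≃ ℝ × (Fin n → ℝ) ≃ ℝ × E n` preserves the volumes
(`EuclideanSpace.volume_preserving_symm_measurableEquiv_toLp` or its current name, and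
`MeasureTheory.volume_preserving_piFinSuccAbove (fun _ => ℝ) 0`), its inverse is `J`. Hence
`∫⁻ exp (-V') = (∫⁻ t, ofReal (exp (-κ t² / 2))) * ∫⁻ exp (-V)` (`lintegral_prod_mul`), the first
factor is `√(2π/κ)`, neither `0` nor `⊤`; and `lift κ μ` is the image of
`(c • volume.withDensity g).prod (Z⁻¹ • volume.withDensity h)`, where `gaussianReal 0 v =
volume.withDensity (gaussianPDF 0 v)` with `gaussianPDF 0 v t = c * exp (-κ t² / 2)`, `v = 1/κ ≠ 0`
(`gaussianReal_of_var_ne_zero`, `prod_withDensity`, `MeasurePreserving.withDensity` or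
`Measure.ext` and `lintegral_map`). The constant `c` is `1 / (∫⁻ ofReal (exp (-κ t² / 2)))` because
the total mass is one. -/
def SLC : Prop := ∀ (n : ℕ) (κ : ℝ) (μ : Measure (E n)), 0 < κ → IsProbabilityMeasure μ →
  StronglyLogConcave κ μ → StronglyLogConcave κ (lift κ μ)

/-- STUB `POI`. The Poincare constant does not decrease if a Gaussian factor is added.

Proof. Let `C` be in the set for `lift κ ν`; to show: the infimum for `ν` is at most `C`. If `C = ⊤`
this is trivial. Let `C < ⊤`; we show that `C` is in the set for `ν`. Let `f` be smooth with compact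
support on `ℝⁿ`, `A` a bound for `|f|` and for `‖fderiv f‖`. Let `χ : ℝ → ℝ` be smooth with compact
support, `χ = 1` near `0`, `0 ≤ χ ≤ 1` (`ContDiffBump`), `|χ'| ≤ K`. For `R = k + 1`, `k : ℕ`, let
`F x = χ (x₀ / R) * f (tail x)`; it is smooth with compact support. With `γ = N(0, 1/κ)`:
`∫ F d(lift ν) = (∫ χ (t / R) dγ) (∫ f dν)`, `∫ F² = (∫ χ (t / R)² dγ) (∫ f² dν)`
(`integral_map`, `integral_prod_mul`), both first factors tend to `1` as `k → ∞` (dominated
convergence). `∫ (F - ∫ F)² = ∫ F² - (∫ F)²` for a probability measure (e.g. `variance_def'` or a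
direct computation), so it tends to `∫ (f - ∫ f)² dν`. And `‖fderiv F x‖ ≤ ‖fderiv f (tail x)‖ +
A K / R` (`tail` and `x ↦ x₀` are linear of norm `≤ 1`), so `‖fderiv F x‖² ≤
‖fderiv f (tail x)‖² + (2 A² K + A² K²) / R`, and `∫⁻ ‖gradient F‖ₑ² ≤ ∫⁻ ‖gradient f‖ₑ² dν +
ofReal ((2 A² K + A² K²) / R)` (norm of the gradient = norm of `fderiv`, as in the file
`NoPoincareBound`; the image of `lift κ ν` by `tail` is `ν`). The limit `k → ∞` of
`ofReal (∫ (F - ∫ F)²) ≤ C * (…)` gives the claim (`ge_of_tendsto`/`le_of_tendsto_of_tendsto'`,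
`C ≠ ⊤` for the continuity of the right side). -/
def POI : Prop := ∀ (n : ℕ) (κ : ℝ) (ν : Measure (E n)), 0 < κ → IsProbabilityMeasure ν →
  poincareConst ν ≤ poincareConst (lift κ ν)

/-- STUB `BAR`. Products with a fixed Gaussian factor of the measures and of the barycenter. -/
def BAR : Prop := ∀ (n N : ℕ) (κ : ℝ) (w : Fin N → ℝ) (μ : Fin N → Measure (E n))
  (ν : Measure (E n)), 0 < κ → (∀ i, IsProbabilityMeasure (μ i)) → IsBarycenter w μ ν →
  IsBarycenter w (fun i => lift κ (μ i)) (lift κ ν)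

/-- STUB `SPL`. -/
def SPL : Prop := ∀ (n : ℕ) (κ : ℝ) (μ : Measure (E n)), 0 < κ → IsProbabilityMeasure μ →
  SplitsOff κ (lift κ μ) (EuclideanSpace.single 0 1)

end Pool.Agent.H17PB
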